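import Mathlib
import Pool.Agent.H30.DL

set_option autoImplicit false

namespace Pool.Agent.Results.MP_a09c40_gt.Ultra

open Set Pool.Agent.H30

/-- Almost discretely Lindelof: every discrete subset lies in a Lindelof subset. -/
def AlmostDiscLind (X : Type) [TopologicalSpace X] : Prop :=
  ∀ D : Set X, DiscreteTopology D → ∃ L : Set X, IsLindelof L ∧ D ⊆ L

/-- Weakly Lindelof: every open cover has a countable subfamily with dense union. -/
def WeakLind (X : Type) [TopologicalSpace X] : Prop :=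
  ∀ 𝒰 : Set (Set X), (∀ U ∈ 𝒰, IsOpen U) → ⋃₀ 𝒰 = Set.univ →
    ∃ 𝒱 ⊆ 𝒰, 𝒱.Countable ∧ Dense (⋃₀ 𝒱)

theorem result : ∃ (X : Type) (_ : TopologicalSpace X), T1Space X ∧ AlmostDiscLind X ∧ ¬ WeakLind X :=
  ⟨DL.P, inferInstance, inferInstance, fun D h => ⟨_, DL.dl D h, subset_closure⟩, DL.not_wl⟩

end Pool.Agent.Results.MP_a09c40_gt.Ultra
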